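import Pool.Agent.V11155.TradeBases

/-!
Every `r ≥ 3` has the property: for every `k ≥ 2` there is a complete simple game with exactly
`r` shift-minimal winning coalition types which is `k`-trade robust but not `(k+1)`-trade robust.
-/

namespace Pool.Agent.Results.MP_c009d0_co.RankThree

open Finset Pool.Agent.V11155.TradeGames Pool.Agent.V11155.LevelGames
open Pool.Agent.V11155.TradeBases

/-- The property of the question: for every `k ≥ 2` there is a complete simple game with exactly
`r` shift-minimal winning coalition types which is `k`-trade robust but not `(k+1)`-trade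
robust. -/
def Good (r : ℕ) : Prop :=
  ∀ k ≥ 2, ∃ (N : Type) (_ : Fintype N) (_ : DecidableEq N) (G : SimpleGame N),
    Complete G ∧ numSMW G = r ∧ TradeRobust G k ∧ ¬ TradeRobust G (k + 1)

/-- There is a suitable game without vetoers. -/
def GoodV (r k : ℕ) : Prop :=
  ∃ (N : Type) (_ : Fintype N) (_ : DecidableEq N) (G : SimpleGame N),
    Complete G ∧ NoVeto G ∧ numSMW G = r ∧ TradeRobust G k ∧ ¬ TradeRobust G (k + 1)

lemma goodV_succ {r k : ℕ} (h : GoodV r k) : GoodV (r + 1) k := by
  obtain ⟨N, i1, i2, G, h1, h2, h3, h4, h5⟩ := h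
  have c1 : Complete (veto G) := (ext_veto G h2).complete h1
  have p1 : NoPass (veto G) := noPass_veto G
  refine ⟨Option (Option N), inferInstance, inferInstance, pass (veto G),
    (ext_pass _ p1).complete c1, noVeto_pass _, ?_, ?_, ?_⟩
  · rw [numSMW_pass _ c1 p1, numSMW_veto G h2, h3]
  · rw [tr_pass, tr_veto]
    exact h4
  · rw [tr_pass, tr_veto]
    exact h5

lemma goodV_two : GoodV 2 2 :=
  ⟨Fin 11, inferInstance, inferInstance, game D3, complete_game D3, noVeto3, by
    rw [numSMW_game]; decide, tr3, not_tr3⟩

lemma goodV_three (k : ℕ) (hk : 2 ≤ k) : GoodV 3 k := by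
  rcases Nat.lt_or_ge k 3 with h | h
  · have : k = 2 := by omega
    subst this
    exact goodV_succ goodV_two
  · obtain ⟨m, rfl⟩ := Nat.exists_eq_add_of_le' h
    exact ⟨P4 m, inferInstance, inferInstance, game (D4 m), complete_game (D4 m), noVeto4 m, by
      rw [numSMW_game, gens4], tr4 m, not_tr4 m⟩

/-- Every `r ≥ 3` has the property. -/
theorem result : ∀ r ≥ 3, Good r := by
  intro r hr k hk
  have h : GoodV r k := by
    induction r, hr using Nat.le_induction with
    | base => exact goodV_three k hk
    | succ r _ ih => exact goodV_succ ih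
  obtain ⟨N, i1, i2, G, h1, _, h3, h4, h5⟩ := h
  exact ⟨N, i1, i2, G, h1, h3, h4, h5⟩

end Pool.Agent.Results.MP_c009d0_co.RankThree
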